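import Mathlib

set_option autoImplicit false

open Polynomial

namespace Pool.Agent.Results.MP_106bf9_an.Counterexample

/-- The set of complex zeros of a polynomial. -/
def Z (f : ℂ[X]) : Set ℂ := {z : ℂ | f.eval z = 0}

/-- `N P r` is the number of distinct complex zeros of `P` and its derivatives of orders
`r 0, ..., r (m-1)`. -/
noncomputable def N (P : ℂ[X]) {m : ℕ} (r : Fin m → ℕ) : ℕ :=
  (Z P ∪ ⋃ k : Fin m, Z (derivative^[r k] P)).ncard

/-- The set of `m`-th roots of unity has `m` elements. -/
theorem ncard_rou (m : ℕ) (hm : 0 < m) : ({z : ℂ | z ^ m = 1}).ncard = m := by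
  have h := (Complex.isPrimitiveRoot_exp m hm.ne').card_nthRootsFinset
  have e : {z : ℂ | z ^ m = 1} = ((Polynomial.nthRootsFinset m (1 : ℂ) : Finset ℂ) : Set ℂ) := by
    ext z
    simp [Polynomial.mem_nthRootsFinset hm]
  rw [e, Set.ncard_coe_finset, h]

theorem finite_rou (m : ℕ) (hm : 0 < m) : ({z : ℂ | z ^ m = 1}).Finite :=
  Set.finite_of_ncard_ne_zero (by rw [ncard_rou m hm]; omega)

/-- For every `m ≥ 2` the polynomial `P = (X ^ m - 1) ^ 2` of degree `n = 2 * m` has at least
two distinct zeros, and for the orders `1, m + 1, m + 2, ..., 2 * m - 1` it satisfies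
`N(P; r_1, ..., r_m) = m + 1 < m + 2`. -/
theorem result (m : ℕ) (hm : 2 ≤ m) :
    ∃ (n : ℕ) (P : ℂ[X]) (r : Fin m → ℕ),
      n = 2 * m ∧ P = (X ^ m - 1) ^ 2 ∧
      (∀ k : Fin m, r k = if (k : ℕ) = 0 then 1 else m + k) ∧
      P.natDegree = n ∧ 2 ≤ n ∧ m ≤ n - 1 ∧
      2 ≤ (Z P).ncard ∧
      StrictMono r ∧ (∀ k, 1 ≤ r k ∧ r k ≤ n - 1) ∧
      N P r = m + 1 := by
  have hm0 : 0 < m := by omega
  refine ⟨2 * m, (X ^ m - 1) ^ 2, fun k => if (k : ℕ) = 0 then 1 else m + k, rfl, rfl, fun _ => rfl, ?_,
    by omega, by omega, ?_, ?_, ?_, ?_⟩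
  · rw [natDegree_pow, show (X ^ m - 1 : ℂ[X]) = X ^ m - C 1 by simp, natDegree_X_pow_sub_C]
  · have : Z ((X ^ m - 1) ^ 2) = {z : ℂ | z ^ m = 1} := by
      ext z
      simp [Z, sub_eq_zero]
    rw [this, ncard_rou m hm0]
    exact hm
  · intro a b hab
    have hab' : (a : ℕ) < b := hab
    dsimp only
    split_ifs <;> omega
  · intro k
    have := k.2
    dsimp only
    split_ifs <;> omega
  · have hP : ((X ^ m - 1) ^ 2 : ℂ[X]) = X ^ (2 * m) - 2 * X ^ m + 1 := by ring
    have hset : (Z ((X ^ m - 1) ^ 2) ∪ ⋃ k : Fin m,
        Z (derivative^[if (k : ℕ) = 0 then 1 else m + k] ((X ^ m - 1) ^ 2)))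
        = insert 0 {z : ℂ | z ^ m = 1} := by
      ext z
      simp only [Set.mem_union, Set.mem_iUnion, Set.mem_insert_iff, Set.mem_ofPred_eq]
      constructor
      · rintro (h | ⟨k, hk⟩)
        · right
          simpa [Z, sub_eq_zero] using h
        · by_cases h0 : (k : ℕ) = 0
          · rw [if_pos h0] at hk
            simp only [Z, Function.iterate_one, Set.mem_ofPred_eq, derivative_pow, derivative_sub,
              derivative_one, eval_mul, eval_sub, eval_pow, eval_X, eval_one,
              eval_C, sub_zero] at hk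
            have hmc : (m : ℂ) ≠ 0 := by exact_mod_cast hm0.ne'
            simp [hmc, sub_eq_zero] at hk
            rcases hk with hk | hk
            · right; exact hk
            · left; exact hk.1
          · rw [if_neg h0] at hk
            left
            have hlt : (k : ℕ) < m := k.2
            have e : derivative^[m + (k : ℕ)] ((X ^ m - 1) ^ 2 : ℂ[X])
                = ((2 * m).descFactorial (m + k) : ℂ[X]) * X ^ (2 * m - (m + k)) := by
              rw [hP, iterate_map_add, iterate_derivative_sub,
                iterate_derivative_X_pow_eq_natCast_mul]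
              have e1 : derivative^[m + (k : ℕ)] (2 * X ^ m : ℂ[X]) = 0 := by
                apply iterate_derivative_eq_zero
                refine lt_of_le_of_lt (natDegree_mul_le) ?_
                rw [natDegree_X_pow]
                have : (2 : ℂ[X]).natDegree = 0 := natDegree_ofNat 2
                omega
              have e2 : derivative^[m + (k : ℕ)] (1 : ℂ[X]) = 0 := by
                apply iterate_derivative_eq_zero
                rw [natDegree_one]; omega
              rw [e1, e2]; ring
            rw [e] at hk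
            simp only [Z, Set.mem_ofPred_eq, eval_mul, eval_natCast, eval_pow, eval_X] at hk
            have hd : (((2 * m).descFactorial (m + k) : ℕ) : ℂ) ≠ 0 := by
              have : (2 * m).descFactorial (m + k) ≠ 0 := by
                rw [Ne, Nat.descFactorial_eq_zero_iff_lt]; omega
              exact_mod_cast this
            have := (mul_eq_zero.mp hk).resolve_left hd
            exact pow_eq_zero_iff (by omega) |>.mp this
      · rintro (rfl | h)
        · right
          refine ⟨⟨0, hm0⟩, ?_⟩
          rw [if_pos rfl]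
          have : m - 1 ≠ 0 := by omega
          simp [Z, derivative_pow, this]
        · left
          simp [Z, h]
    unfold N
    rw [hset, Set.ncard_insert_of_notMem _ (finite_rou m hm0), ncard_rou m hm0]
    simp [hm0.ne']

end Pool.Agent.Results.MP_106bf9_an.Counterexample
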